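import Mathlib

set_option autoImplicit false

namespace Pool.Agent.Results.MP_bfacb1_co.Q1
open SimpleGraph

/-- edges sharing a vertex get different colours -/
def Proper {V C : Type} (G : SimpleGraph V) (c : Sym2 V → C) : Prop :=
  ∀ e ∈ G.edgeSet, ∀ e' ∈ G.edgeSet, e ≠ e' → (∃ v, v ∈ e ∧ v ∈ e') → c e ≠ c e'

/-- the copy `f` of `H` in `G` is rainbow -/
def Rainbow {V W C : Type} {G : SimpleGraph V} {H : SimpleGraph W} (c : Sym2 V → C)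
    (f : H.Copy G) : Prop :=
  Set.InjOn (fun e : Sym2 W => c (e.map f)) H.edgeSet

/-- the set `K(G,H)` -/
def K {V W : Type} (G : SimpleGraph V) (H : SimpleGraph W) : Set ℕ :=
  {k | 1 ≤ k ∧ ∃ c : Sym2 V → Fin k, Proper G c ∧ (∀ i, ∃ e ∈ G.edgeSet, c e = i) ∧
    ∀ f : H.Copy G, ¬ Rainbow c f}

def L : List (Fin 5 × Fin 5) := [(0, 1), (1, 2), (2, 3), (3, 4), (0, 4), (0, 2)]

def H0 : SimpleGraph (Fin 5) := fromRel (fun a b => (a, b) ∈ L)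

instance : DecidableRel H0.Adj := fun a b =>
  inferInstanceAs (Decidable (a ≠ b ∧ ((a, b) ∈ L ∨ (b, a) ∈ L)))

lemma mem_H (e : Sym2 (Fin 5)) : e ∈ H0.edgeSet ↔ ∃ p ∈ L, e = s(p.1, p.2) := by
  induction e using Sym2.ind with
  | _ a b => rw [mem_edgeSet]; revert a b; decide

def RB {C : Type} (t : Fin 5 → Fin 5 → C) (f : Fin 5 → Fin 5) : Prop :=
  ∀ p ∈ L, ∀ q ∈ L, t (f p.1) (f p.2) = t (f q.1) (f q.2) → p = q

lemma RB_iff {C : Type} (t : Fin 5 → Fin 5 → C) (f : Fin 5 → Fin 5) : RB t f ↔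
    [t (f 0) (f 1), t (f 1) (f 2), t (f 2) (f 3), t (f 3) (f 4), t (f 0) (f 4),
      t (f 0) (f 2)].Nodup :=
  (List.nodup_map_iff_inj_on (f := fun p : Fin 5 × Fin 5 => t (f p.1) (f p.2)) (l := L)
    (by decide)).symm

instance {C : Type} [DecidableEq C] (t : Fin 5 → Fin 5 → C) (f : Fin 5 → Fin 5) :
    Decidable (RB t f) := decidable_of_iff _ (RB_iff t f).symm

lemma rb_iff {C : Type} (c : Sym2 (Fin 5) → C) (f : H0.Copy (⊤ : SimpleGraph (Fin 5))) :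
    Rainbow c f ↔ RB (fun a b => c s(a, b)) f := by
  constructor
  · intro h p hp q hq e
    have : ∀ p ∈ L, ∀ q ∈ L, s(p.1, p.2) = s(q.1, q.2) → p = q := by decide
    exact this p hp q hq (h ((mem_H _).2 ⟨p, hp, rfl⟩) ((mem_H _).2 ⟨q, hq, rfl⟩) e)
  · intro h e he e' he' hh
    obtain ⟨p, hp, rfl⟩ := (mem_H _).1 he
    obtain ⟨q, hq, rfl⟩ := (mem_H _).1 he'
    rw [h p hp q hq hh]

lemma mem_K (k : ℕ) (hk : 1 ≤ k) (t : Fin 5 → Fin 5 → Fin k) (hs : ∀ a b, t a b = t b a)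
    (hp : ∀ v a b, a ≠ v → b ≠ v → a ≠ b → t v a ≠ t v b) (hj : ∀ i, ∃ a b, a ≠ b ∧ t a b = i)
    (hr : ∀ a b c : Fin 5, [a, b, c].Nodup → ∀ d e : Fin 5, [a, b, c, d, e].Nodup →
      ¬ [t a b, t b c, t c d, t d e, t a e, t a c].Nodup) :
    k ∈ K (⊤ : SimpleGraph (Fin 5)) H0 := by
  refine ⟨hk, Sym2.lift ⟨t, hs⟩, ?_, fun i => ?_, fun f h => ?_⟩
  · rintro e he e' he' hne ⟨v, h1, h2⟩
    obtain ⟨a, rfl⟩ := Sym2.mem_iff_exists.1 h1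
    obtain ⟨b, rfl⟩ := Sym2.mem_iff_exists.1 h2
    exact hp v a b (Ne.symm he) (Ne.symm he') (fun h => hne (by rw [h]))
  · obtain ⟨a, b, h, e⟩ := hj i
    exact ⟨s(a, b), h, e⟩
  · rw [rb_iff, RB_iff] at h
    exact hr (f 0) (f 1) (f 2)
      ((List.nodup_map_iff f.injective (l := [0, 1, 2])).2 (by decide)) (f 3) (f 4)
      ((List.nodup_map_iff f.injective (l := [0, 1, 2, 3, 4])).2 (by decide)) h

def tab (a b c d e f : Fin 6) : Fin 5 → Fin 5 → Fin 6 :=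
  ![![0, 0, 1, 2, 3], ![0, 0, a, b, c], ![1, a, 0, d, e], ![2, b, d, 0, f], ![3, c, e, f, 0]]

def P : List (Fin 5 → Fin 5) :=
  [![0, 1, 2, 3, 4], ![0, 1, 2, 4, 3], ![0, 1, 3, 2, 4], ![0, 1, 3, 4, 2], ![0, 1, 4, 2, 3], ![0, 1, 4, 3, 2], ![0, 2, 1, 3, 4], ![0, 2, 1, 4, 3], ![0, 2, 3, 1, 4], ![0, 2, 3, 4, 1], ![0, 2, 4, 1, 3], ![0, 2, 4, 3, 1], ![0, 3, 1, 2, 4], ![0, 3, 1, 4, 2], ![0, 3, 2, 1, 4], ![0, 3, 2, 4, 1], ![0, 3, 4, 1, 2], ![0, 3, 4, 2, 1], ![0, 4, 1, 2, 3], ![0, 4, 1, 3, 2], ![0, 4, 2, 1, 3], ![0, 4, 2, 3, 1], ![0, 4, 3, 1, 2], ![0, 4, 3, 2, 1], ![1, 0, 2, 3, 4], ![1, 0, 2, 4, 3], ![1, 0, 3, 2, 4], ![1, 0, 3, 4, 2], ![1, 0, 4, 2, 3], ![1, 0, 4, 3, 2], ![1, 2, 3, 0, 4], ![1, 2, 3, 4, 0], ![1, 2, 4, 0, 3], ![1, 2, 4, 3, 0], ![1, 3, 2, 0, 4], ![1, 3, 2, 4, 0], ![1, 3, 4, 0, 2], ![1, 3, 4, 2, 0], ![1, 4, 2, 0, 3], ![1, 4, 2, 3, 0], ![1, 4, 3, 0, 2], ![1,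 4, 3, 2, 0]]

lemma six : ∀ a b c : Fin 6, [0, a, b, c].Nodup → ∀ d e : Fin 6, [1, a, d, e].Nodup →
    ∀ f : Fin 6, [2, b, d, f].Nodup → [3, c, e, f].Nodup →
    4 ∈ [0, 1, 2, 3, a, b, c, d, e, f] → 5 ∈ [0, 1, 2, 3, a, b, c, d, e, f] →
    ∃ g ∈ P, RB (tab a b c d e f) g := by
  decide +kernel

lemma tab_mem (a b c d e f : Fin 6) (x y : Fin 5) :
    tab a b c d e f x y ∈ [0, 1, 2, 3, a, b, c, d, e, f] := by
  fin_cases x <;> fin_cases y <;> simp [tab]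

lemma five : 5 ∈ K (⊤ : SimpleGraph (Fin 5)) H0 :=
  mem_K 5 (by norm_num) (fun a b => a + b) (by decide) (by decide) (by decide) (by decide +kernel)

def t7 : Fin 5 → Fin 5 → Fin 7 := ![![0, 0, 1, 2, 3], ![0, 0, 2, 1, 4], ![1, 2, 0, 0, 5],
  ![2, 1, 0, 0, 6], ![3, 4, 5, 6, 0]]

lemma seven : 7 ∈ K (⊤ : SimpleGraph (Fin 5)) H0 :=
  mem_K 7 (by norm_num) t7 (by decide +kernel) (by decide +kernel) (by decide +kernel)
    (by decide +kernel)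

theorem result : ∃ (n m : ℕ) (G : SimpleGraph (Fin n)) (H : SimpleGraph (Fin m)) (a b c : ℕ),
    a < b ∧ b < c ∧ a ∈ K G H ∧ c ∈ K G H ∧ b ∉ K G H := by
  refine ⟨5, 5, ⊤, H0, 5, 6, 7, by norm_num, by norm_num, five, seven, ?_⟩
  rintro ⟨-, c, hp, hs, hr⟩
  have pr : ∀ v a b : Fin 5, a ≠ v → b ≠ v → a ≠ b → c s(v, a) ≠ c s(v, b) := fun v a b h1 h2 h3 =>
    hp _ (Ne.symm h1) _ (Ne.symm h2) (fun h => h3 (Sym2.congr_right.1 h))
      ⟨v, Sym2.mem_mk_left _ _, Sym2.mem_mk_left _ _⟩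
  obtain ⟨σ, hσ⟩ := Equiv.Perm.exists_extending_pair (fun i : Fin 4 => c s(0, i.succ))
    (fun i : Fin 4 => (i.castLE (by norm_num) : Fin 6))
    (fun i j h => by
      by_contra hne
      exact pr 0 _ _ (Fin.succ_ne_zero i) (Fin.succ_ne_zero j)
        (fun e => hne (Fin.succ_injective _ e)) h)
    (Fin.castLE_injective (by norm_num))
  have ht : ∀ a b : Fin 5, a ≠ b → σ (c s(a, b)) = tab (σ (c s(1, 2))) (σ (c s(1, 3)))
      (σ (c s(1, 4))) (σ (c s(2, 3))) (σ (c s(2, 4))) (σ (c s(3, 4))) a b := by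
    have h0 := hσ 0
    have h1 := hσ 1
    have h2 := hσ 2
    have h3 := hσ 3
    intro a b hab
    fin_cases a <;> fin_cases b <;> first
      | exact absurd rfl hab
      | rfl | exact h0 | exact h1 | exact h2 | exact h3
      | (rw [Sym2.eq_swap]; first | rfl | exact h0 | exact h1 | exact h2 | exact h3)
  generalize σ (c s(1, 2)) = a, σ (c s(1, 3)) = b, σ (c s(1, 4)) = d, σ (c s(2, 3)) = e,
    σ (c s(2, 4)) = f, σ (c s(3, 4)) = g at ht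
  have q : ∀ v x y : Fin 5, x ≠ v → y ≠ v → x ≠ y → tab a b d e f g v x ≠ tab a b d e f g v y :=
    fun v x y h1 h2 h3 => by
      rw [← ht _ _ h1.symm, ← ht _ _ h2.symm]
      exact σ.injective.ne (pr v x y h1 h2 h3)
  have sj : ∀ i : Fin 6, i ∈ [0, 1, 2, 3, a, b, d, e, f, g] := by
    intro i
    obtain ⟨z, hz, h⟩ := hs (σ.symm i)
    induction z using Sym2.ind with
    | _ x y =>
      have h2 := ht x y hz
      rw [h, Equiv.apply_symm_apply] at h2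
      rw [h2]; exact tab_mem _ _ _ _ _ _ _ _
  have nd : ∀ (v : Fin 5) (l : List (Fin 5)), l.Nodup → v ∉ l → (l.map (tab a b d e f g v)).Nodup :=
    fun v l h1 h2 => List.Nodup.map_on (fun x hx y hy h => by_contra fun ne =>
      q v x y (fun e => h2 (e ▸ hx)) (fun e => h2 (e ▸ hy)) ne h) h1
  obtain ⟨r, hr1, hr2⟩ := six a b d (nd 1 [0, 2, 3, 4] (by decide) (by decide)) e f
    (nd 2 [0, 1, 3, 4] (by decide) (by decide)) g (nd 3 [0, 1, 2, 4] (by decide) (by decide))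
    (nd 4 [0, 1, 2, 3] (by decide) (by decide)) (sj 4) (sj 5)
  have hi : Function.Injective r := by
    have : P.all (fun g => decide (∀ x y : Fin 5, g x = g y → x = y)) = true := by decide +kernel
    have h2 := List.all_eq_true.1 this r hr1
    exact fun x y => (of_decide_eq_true h2 : ∀ x y : Fin 5, r x = r y → x = y) x y
  refine hr ⟨⟨r, fun h => hi.ne h.ne⟩, hi⟩ ((rb_iff _ _).2 fun p hp q hq h => hr2 p hp q hq ?_)
  have n : ∀ p ∈ L, p.1 ≠ p.2 := by decide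
  rw [← ht _ _ (hi.ne (n p hp)), ← ht _ _ (hi.ne (n q hq))]
  exact congrArg σ h

end Pool.Agent.Results.MP_bfacb1_co.Q1
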